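import Pool.Agent.Helper74.NE.Defs

/-!
# Two windows: a class is small
-/

namespace Pool.Agent.Helper96.NE

open Pool.Agent.Helper19.NF Pool.Agent.Helper74.NW Pool.Agent.Helper74.NE

/-- The windows `W₁`, `W₂` of the elements `(y, z)` of a class: `W₁` depends on `z` only, `W₂` on `y` only. -/
theorem card_class' {ι B : Type} [AddCommGroup B] [Finite ι] [Finite B] {T : ℕ} {δ : ℝ} (hE : DP B ι T δ)
    (al : ι → B) (X : Set ((ι → B) × (ι → B))) (W₁ W₂ : (ι → B) × (ι → B) → List B)
    (h1 : ∀ y y' z, (y, z) ∈ X → (y', z) ∈ X → W₁ (y, z) = W₁ (y', z))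
    (h2 : ∀ y z z', (y, z) ∈ X → (y, z') ∈ X → W₂ (y, z) = W₂ (y, z'))
    (hT : ∀ p ∈ X, Nat.card {c // c ∈ W₁ p ++ W₂ p} ≤ T)
    (hc : ∀ p ∈ X, ∀ c, al c + p.1 c + p.2 c ∈ W₁ p ++ W₂ p) :
    (Nat.card {p // p ∈ X} : ℝ) ≤ δ * Nat.card ((ι → B) × (ι → B)) := by
  classical
  let Z₁ : (ι → B) → Set B := fun z => if h : ∃ y, (y, z) ∈ X then {c | c ∈ W₁ (h.choose, z)} else ∅
  let Z₂ : (ι → B) → Set B := fun y => if h : ∃ z, (y, z) ∈ X then {c | c ∈ W₂ (y, h.choose)} else ∅
  have e1 : ∀ y z, (y, z) ∈ X → Z₁ z = {c | c ∈ W₁ (y, z)} := by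
    intro y z hp
    have h : ∃ y, (y, z) ∈ X := ⟨y, hp⟩
    have : Z₁ z = {c | c ∈ W₁ (h.choose, z)} := dif_pos h
    rw [this, h1 _ y z h.choose_spec hp]
  have e2 : ∀ y z, (y, z) ∈ X → Z₂ y = {c | c ∈ W₂ (y, z)} := by
    intro y z hp
    have h : ∃ z, (y, z) ∈ X := ⟨z, hp⟩
    have : Z₂ y = {c | c ∈ W₂ (y, h.choose)} := dif_pos h
    rw [this, h2 y _ z h.choose_spec hp]
  have e3 : ∀ p ∈ X, Z₁ p.2 ∪ Z₂ p.1 = {c | c ∈ W₁ p ++ W₂ p} := by
    rintro ⟨y, z⟩ hp
    show Z₁ z ∪ Z₂ y = _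
    rw [e1 y z hp, e2 y z hp]
    ext c
    simp only [Set.mem_union, Set.mem_ofPred_eq, List.mem_append]
  refine le_trans ?_ (hE al Z₁ Z₂)
  have hsub : Nat.card {p // p ∈ X} ≤ Nat.card {p : (ι → B) × (ι → B) //
      (Z₁ p.2 ∪ Z₂ p.1).ncard ≤ T ∧ ∀ t, al t + p.1 t + p.2 t ∈ Z₁ p.2 ∪ Z₂ p.1} := by
    refine Nat.card_le_card_of_injective (fun p => ⟨p.1, ?_, ?_⟩) ?_
    · rw [e3 p.1 p.2]
      have h4 := hT p.1 p.2
      rwa [← Set.coe_ofPred, Nat.card_coe_set_eq] at h4
    · intro t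
      rw [e3 p.1 p.2]
      exact hc p.1 p.2 t
    · intro p q hpq
      exact Subtype.ext (congrArg (fun x => x.1) hpq)
  exact_mod_cast hsub

variable {n d m : ℕ} {B : Type} [AddCommGroup B] [NeZero m] {S K : ℕ}
variable {g : Fin d → Equiv.Perm (Fin n)} {x0 : Fin n × Fin m → B} {i a : ℕ} {u : Fin a → Fin n}
variable {r r' : Fin a → Fin d × Fin m}

theorem chg_of_not {y : Fin a × Fin m → B} {I : B → Fin d × Fin m → B} {b : B}
    (hb : ∀ j, b ≠ hole g x0 i u r I j) : chg g x0 i u r y I b = 0 := by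
  funext c
  unfold chg
  exact Finset.sum_eq_zero fun j _ => Finset.sum_eq_zero fun t _ => if_neg fun h1 => hb j h1.1

theorem chg_ne {y : Fin a × Fin m → B} {I : B → Fin d × Fin m → B} (b : B)
    (hb : chg g x0 i u r y I b ≠ 0) : ∃ v, b = val (fine g) x0 I i v := by
  by_contra hc
  exact hb (chg_of_not fun j hj => hc ⟨_, hj⟩)

/-- The letters of the row `i + 1` after the change. -/
theorem val_chg {I : B → Fin d × Fin m → B} (hI : CF (fine g) x0 i I) (y : Fin a × Fin m → B)
    (v : Fin n) (t : Fin m) :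
    val (fine g) x0 (I + chg g x0 i u r y I) (i + 1) (v, t) =
      val (fine g) x0 I (i + 1) (v, t) + ∑ j, if u j = v then y (j, t) else 0 := by
  classical
  rw [val_add_succ hI _ chg_ne]
  congr 1
  unfold chg
  rw [Finset.sum_comm]
  refine Finset.sum_congr rfl fun j _ => ?_
  have h1 : ∀ (c : Fin d × Fin m) (t' : Fin m),
      (val (fine g) x0 I i (fine g c (v, t)) = hole g x0 i u r I j ∧ c = ((r j).1, (r j).2 - t')) ↔
        (c = ((r j).1, (r j).2 - t) ∧ t' = t ∧ u j = v) := by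
    intro c t'
    unfold hole
    constructor
    · rintro ⟨h2, rfl⟩
      have h3 := (hI i i _ _ le_rfl le_rfl h2).2
      rw [fine_apply, Prod.mk.injEq] at h3
      obtain ⟨h4, h5⟩ := h3
      have h6 : v = u j := (g (r j).1).injective h4
      have h7 : t' = t := by
        have h8 : t + ((r j).2 - t') = (r j).2 := h5
        have h9 : t - t' = 0 := by
          have h10 : t + ((r j).2 - t') = (r j).2 + (t - t') := by abel
          rw [h10] at h8
          exact left_eq_add.mp h8.symm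
        exact (sub_eq_zero.mp h9).symm
      exact ⟨by rw [h7], h7, h6.symm⟩
    · rintro ⟨rfl, rfl, rfl⟩
      refine ⟨?_, rfl⟩
      rw [fine_apply]
      congr 2
      show t' + ((r j).2 - t') = (r j).2
      abel
  have h2 : ∀ (c : Fin d × Fin m) (t' : Fin m),
      (if val (fine g) x0 I i (fine g c (v, t)) = hole g x0 i u r I j ∧ c = ((r j).1, (r j).2 - t') then y (j, t')
        else 0) = if c = ((r j).1, (r j).2 - t) then (if t' = t then (if u j = v then y (j, t) else 0) else 0)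
          else 0 := by
    intro c t'
    by_cases h3 : c = ((r j).1, (r j).2 - t)
    · by_cases h4 : t' = t
      · by_cases h5 : u j = v
        · rw [if_pos ((h1 c t').mpr ⟨h3, h4, h5⟩), if_pos h3, if_pos h4, if_pos h5, h4]
        · rw [if_neg fun h6 => h5 ((h1 c t').mp h6).2.2, if_pos h3, if_pos h4, if_neg h5]
      · rw [if_neg fun h6 => h4 ((h1 c t').mp h6).2.1, if_pos h3, if_neg h4]
    · rw [if_neg fun h6 => h3 ((h1 c t').mp h6).1, if_neg h3]
  simp only [h2]
  rw [Finset.sum_eq_single ((r j).1, (r j).2 - t)]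
  · simp
  · intro c _ hc
    exact Finset.sum_eq_zero fun t' _ => if_neg hc
  · intro h3
    exact (h3 (Finset.mem_univ _)).elim

theorem hole_chg {I : B → Fin d × Fin m → B} (hI : CF (fine g) x0 i I) (y : Fin a × Fin m → B)
    {ρ : Fin a → Fin d × Fin m} (j : Fin a) : hole g x0 i u ρ (I + chg g x0 i u r y I) j = hole g x0 i u ρ I j := by
  unfold hole
  rw [val_add hI _ chg_ne i le_rfl]

theorem CF_chg {I : B → Fin d × Fin m → B} (hI : CF (fine g) x0 i I) (y : Fin a × Fin m → B) :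
    CF (fine g) x0 i (I + chg g x0 i u r y I) := CF_add hI _ chg_ne

theorem chg_chg {I : B → Fin d × Fin m → B} (hI : CF (fine g) x0 i I) (y z : Fin a × Fin m → B) :
    chg g x0 i u r' z (I + chg g x0 i u r y I) = chg g x0 i u r' z I := by
  classical
  funext b c
  unfold chg
  refine Finset.sum_congr rfl fun j _ => Finset.sum_congr rfl fun t _ => ?_
  have h1 := hole_chg (u := u) (r := r) hI y (ρ := r') j
  unfold chg at h1
  rw [h1]

/-- The letters of the row `i + 1` after both changes. -/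
theorem val_chg2 {I : B → Fin d × Fin m → B} (hI : CF (fine g) x0 i I) (hu : Function.Injective u)
    (y z : Fin a × Fin m → B) (c : Fin a × Fin m) :
    val (fine g) x0 (I + chg g x0 i u r y I + chg g x0 i u r' z I) (i + 1) (u c.1, c.2) =
      val (fine g) x0 I (i + 1) (u c.1, c.2) + y c + z c := by
  have h1 : ∀ y : Fin a × Fin m → B, (∑ j', if u j' = u c.1 then y (j', c.2) else 0) = y c := by
    intro y
    rw [Finset.sum_eq_single c.1]
    · rw [if_pos rfl]
    · intro j' _ hj'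
      rw [if_neg fun h5 => hj' (hu h5)]
    · intro h5
      exact (h5 (Finset.mem_univ _)).elim
  rw [← chg_chg (u := u) (r := r) (r' := r') hI y z, val_chg (CF_chg hI y), val_chg hI, h1, h1]

/-- The holes after both changes. -/
theorem hole_chg2 {I : B → Fin d × Fin m → B} (hI : CF (fine g) x0 i I)
    (y z : Fin a × Fin m → B) {ρ : Fin a → Fin d × Fin m} (j : Fin a) :
    hole g x0 i u ρ (I + chg g x0 i u r y I + chg g x0 i u r' z I) j = hole g x0 i u ρ I j := by
  rw [← chg_chg (u := u) (r := r) (r' := r') hI y z, hole_chg (CF_chg hI y), hole_chg hI]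

/-- E5: the windows are the same for all elements of a class with the same `z` (the first) or `y` (the second), so the
product lemma applies. -/
theorem class_bound [Fintype B] (P : NProg B (Fin d × Fin m → B) B S) (e : B → Fin K)
    (he : Function.Injective e) (g : Fin d → Equiv.Perm (Fin n)) (x0 : Fin n × Fin m → B)
    {T i a : ℕ} {δ : ℝ} (hδ : DP B (Fin a × Fin m) T δ) (u : Fin a → Fin n) (hu : StrictMono u)
    (r r' : Fin a → Fin d × Fin m) (s p t : Fin S) (I : B → Fin d × Fin m → B) (hI : CF (fine g) x0 i I) :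
    (Nat.card {y : (Fin a × Fin m → B) × (Fin a × Fin m → B) //
        InX P e g x0 T i u r r' s p t (I + chg g x0 i u r y.1 I + chg g x0 i u r' y.2 I)} : ℝ) ≤
      δ * Nat.card ((Fin a × Fin m → B) × (Fin a × Fin m → B)) := by
  classical
  set X : Set ((Fin a × Fin m → B) × (Fin a × Fin m → B)) :=
    {y | InX P e g x0 T i u r r' s p t (I + chg g x0 i u r y.1 I + chg g x0 i u r' y.2 I)} with hX
  have hw : ∀ y ∈ X, ∃ w : List B × List B,
      Best P e (I + chg g x0 i u r y.1 I + chg g x0 i u r' y.2 I) s w.1 p ∧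
      Best P e (I + chg g x0 i u r y.1 I + chg g x0 i u r' y.2 I) p w.2 t ∧
      Nat.card {c // c ∈ w.1 ++ w.2} ≤ T ∧
      (∀ c : Fin a × Fin m, val (fine g) x0 I (i + 1) (u c.1, c.2) + y.1 c + y.2 c ∈ w.1 ++ w.2) ∧
        ∀ j, hole g x0 i u r I j ∉ w.1 ∧ hole g x0 i u r' I j ∉ w.2 := by
    intro y hy
    obtain ⟨_, w₁, w₂, h1, h2, h3, h4⟩ := hy
    refine ⟨(w₁, w₂), h1, h2, h3, fun c => ?_, fun j => ?_⟩
    · rw [← val_chg2 (r := r) (r' := r') hI hu.injective y.1 y.2]
      exact (h4 c.1).1 c.2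
    · have h5 := (h4 j).2
      rw [hole_chg2 hI, hole_chg2 hI] at h5
      exact h5
  choose! W hW using hw
  refine card_class' hδ (fun c => val (fine g) x0 I (i + 1) (u c.1, c.2)) X (fun y => (W y).1) (fun y => (W y).2)
    ?_ ?_ (fun y hy => (hW y hy).2.2.1) (fun y hy => (hW y hy).2.2.2.1)
  · -- the first window does not depend on `y`
    intro y y' z hp hp'
    have hv : ∀ y y' : Fin a × Fin m → B, (y, z) ∈ X →
        P.Run (I + chg g x0 i u r y' I + chg g x0 i u r' z I) s (W (y, z)).1 p := by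
      intro y y' hp
      refine run_congr (hW _ hp).1.run fun c hc => ?_
      have h1 : ∀ j, c ≠ hole g x0 i u r I j := fun j h => ((hW _ hp).2.2.2.2 j).1 (h ▸ hc)
      rw [Pi.add_apply, Pi.add_apply, Pi.add_apply, Pi.add_apply, chg_of_not h1, chg_of_not h1]
    exact Best.unique he (hW _ hp).1 (hW _ hp').1 (hv y' y hp') (hv y y' hp)
  · -- the second window does not depend on `z`
    intro y z z' hp hp'
    have hv : ∀ z z' : Fin a × Fin m → B, (y, z) ∈ X →
        P.Run (I + chg g x0 i u r y I + chg g x0 i u r' z' I) p (W (y, z)).2 t := by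
      intro z z' hp
      refine run_congr (hW _ hp).2.1.run fun c hc => ?_
      have h1 : ∀ j, c ≠ hole g x0 i u r' I j := fun j h => ((hW _ hp).2.2.2.2 j).2 (h ▸ hc)
      rw [Pi.add_apply, Pi.add_apply, Pi.add_apply, Pi.add_apply, chg_of_not h1, chg_of_not h1]
    exact Best.unique he (hW _ hp).2.1 (hW _ hp').2.1 (hv z' z hp') (hv z z' hp)

end Pool.Agent.Helper96.NE
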