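import Mathlib

/-!
# Two windows: from a class to two families of sets
-/

set_option autoImplicit false

namespace Pool.Agent.Helper96.NE

variable {ι B : Type} [Fintype ι] [DecidableEq ι] [Fintype B] [DecidableEq B] [AddCommGroup B]

/-- The bound for the pairs `(y, z)`: the sets `U₁ y`, `U₂ z` have at least `v` common elements, and the elements
`al c + y c + z c` are not among them. -/
def DPL (ι B : Type) [Fintype ι] [DecidableEq ι] [Fintype B] [DecidableEq B] [AddCommGroup B] (v E : ℕ) : Prop :=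
  ∀ (al : ι → B) (U₁ U₂ : (ι → B) → Finset B),
    (Finset.univ.filter (fun p : (ι → B) × (ι → B) => v ≤ (U₁ p.1 ∩ U₂ p.2).card ∧
      ∀ c, al c + p.1 c + p.2 c ∉ U₁ p.1 ∩ U₂ p.2)).card ≤ E

/-- The windows `W₁`, `W₂` of the elements `(y, z)` of a class: `W₁` depends on `z` only, `W₂` on `y` only. -/
theorem card_class {v E : ℕ} (hE : DPL ι B v E) (al : ι → B) (X : Finset ((ι → B) × (ι → B)))
    (W₁ W₂ : (ι → B) × (ι → B) → List B)
    (h1 : ∀ y y' z, (y, z) ∈ X → (y', z) ∈ X → W₁ (y, z) = W₁ (y', z))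
    (h2 : ∀ y z z', (y, z) ∈ X → (y, z') ∈ X → W₂ (y, z) = W₂ (y, z'))
    (hT : ∀ p ∈ X, v + ((W₁ p).toFinset ∪ (W₂ p).toFinset).card ≤ Fintype.card B)
    (hc : ∀ p ∈ X, ∀ c, al c + p.1 c + p.2 c ∈ W₁ p ∨ al c + p.1 c + p.2 c ∈ W₂ p) : X.card ≤ E := by
  classical
  -- the sets which are not queried
  let U₁ : (ι → B) → Finset B := fun z =>
    if h : ∃ y, (y, z) ∈ X then Finset.univ \ (W₁ (h.choose, z)).toFinset else ∅
  let U₂ : (ι → B) → Finset B := fun y =>
    if h : ∃ z, (y, z) ∈ X then Finset.univ \ (W₂ (y, h.choose)).toFinset else ∅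
  have e1 : ∀ y z, (y, z) ∈ X → U₁ z = Finset.univ \ (W₁ (y, z)).toFinset := by
    intro y z hp
    have h : ∃ y, (y, z) ∈ X := ⟨y, hp⟩
    have : U₁ z = Finset.univ \ (W₁ (h.choose, z)).toFinset := dif_pos h
    rw [this, h1 _ y z h.choose_spec hp]
  have e2 : ∀ y z, (y, z) ∈ X → U₂ y = Finset.univ \ (W₂ (y, z)).toFinset := by
    intro y z hp
    have h : ∃ z, (y, z) ∈ X := ⟨z, hp⟩
    have : U₂ y = Finset.univ \ (W₂ (y, h.choose)).toFinset := dif_pos h
    rw [this, h2 y _ z h.choose_spec hp]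
  refine le_trans (Finset.card_le_card fun p hp => ?_) (hE al U₂ U₁)
  obtain ⟨y, z⟩ := p
  rw [Finset.mem_filter]
  have e3 : U₂ y ∩ U₁ z = Finset.univ \ ((W₁ (y, z)).toFinset ∪ (W₂ (y, z)).toFinset) := by
    rw [e1 y z hp, e2 y z hp]
    ext b
    simp only [Finset.mem_inter, Finset.mem_sdiff, Finset.mem_univ, true_and, Finset.mem_union, not_or]
    tauto
  refine ⟨Finset.mem_univ _, ?_, fun c hcm => ?_⟩
  · show v ≤ (U₂ y ∩ U₁ z).card
    rw [e3, Finset.card_univ_sdiff]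
    have := hT (y, z) hp
    omega
  · have hcm' : al c + y c + z c ∈ U₂ y ∩ U₁ z := hcm
    rw [e3] at hcm'
    simp only [Finset.mem_sdiff, Finset.mem_univ, true_and, Finset.mem_union, List.mem_toFinset] at hcm'
    exact hcm' (hc (y, z) hp c)

end Pool.Agent.Helper96.NE
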