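import Pool.Agent.Helper74.NW.Class
import Pool.Agent.Helper96.NE.Abs

/-!
# Two windows: a class is small
-/

set_option autoImplicit false

namespace Pool.Agent.Helper96.NE

open Pool.Agent.Helper19.NF Pool.Agent.Helper74.NW

variable {n d h : ℕ} {B : Type} [AddCommGroup B] [NeZero (2 * h)] {S K : ℕ}

/-- The change of the contents of the holes `r` by `y` and of the holes `r'` by `z`. -/
noncomputable def chg2 {a : ℕ} (g : Fin d → Equiv.Perm (Fin n)) (x0 : Fin n × Fin (2 * h) → B) (i : ℕ)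
    (u : Fin a → Fin n) (r r' : Fin a → Fin d × Fin (2 * h))
    (p : (Fin a → Fin (2 * h) → B) × (Fin a → Fin (2 * h) → B))
    (I : B → Fin d × Fin (2 * h) → B) : B → Fin d × Fin (2 * h) → B :=
  chg g x0 i u r p.1 I + chg g x0 i u r' p.2 I

/-- The instances with two consecutive windows of the given kind: all the letters of the nodes `u j` of row `i + 1` are
queried in one of the windows, the hole `r j` is not queried in the first window, the hole `r' j` is not queried in the
second window. -/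
def InX2 {a S K : ℕ} (P : NProg B (Fin d × Fin (2 * h) → B) B S) (e : B → Fin K) (g : Fin d → Equiv.Perm (Fin n))
    (x0 : Fin n × Fin (2 * h) → B) (T i : ℕ) (u : Fin a → Fin n) (r r' : Fin a → Fin d × Fin (2 * h))
    (s q t : Fin S) (I : B → Fin d × Fin (2 * h) → B) : Prop :=
  CF (fine g) x0 i I ∧ ∃ w₁ w₂ : List B, Best P e I s w₁ q ∧ Best P e I q w₂ t ∧
    Nat.card {c // c ∈ w₁ ++ w₂} ≤ T ∧
    ∀ j, (∀ t, val (fine g) x0 I (i + 1) (u j, t) ∈ w₁ ++ w₂) ∧
      hole g x0 i u r I j ∉ w₁ ∧ hole g x0 i u r' I j ∉ w₂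

variable {g : Fin d → Equiv.Perm (Fin n)} {x0 : Fin n × Fin (2 * h) → B} {i a : ℕ} {u : Fin a → Fin n}
variable {r r' : Fin a → Fin d × Fin (2 * h)}

theorem chg_congr {I I' : B → Fin d × Fin (2 * h) → B} (z : Fin a → Fin (2 * h) → B)
    (hI : ∀ j, hole g x0 i u r I' j = hole g x0 i u r I j) :
    chg g x0 i u r z I' = chg g x0 i u r z I := by
  classical
  funext b c
  unfold chg
  simp only [hI]

theorem hole_chg' {I : B → Fin d × Fin (2 * h) → B} (hI : CF (fine g) x0 i I) (y : Fin a → Fin (2 * h) → B)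
    (j : Fin a) : hole g x0 i u r' (I + chg g x0 i u r y I) j = hole g x0 i u r' I j := by
  unfold hole
  rw [val_chg_le hI y le_rfl]

theorem chg2_eq {I : B → Fin d × Fin (2 * h) → B} (hI : CF (fine g) x0 i I)
    (p : (Fin a → Fin (2 * h) → B) × (Fin a → Fin (2 * h) → B)) :
    I + chg2 g x0 i u r r' p I = (I + chg g x0 i u r p.1 I) +
      chg g x0 i u r' p.2 (I + chg g x0 i u r p.1 I) := by
  rw [chg_congr (I := I) (I' := I + chg g x0 i u r p.1 I) p.2 (hole_chg' hI p.1)]
  unfold chg2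
  rw [add_assoc]

theorem CF_chg {I : B → Fin d × Fin (2 * h) → B} (hI : CF (fine g) x0 i I) (y : Fin a → Fin (2 * h) → B) :
    CF (fine g) x0 i (I + chg g x0 i u r y I) := CF_add hI _ chg_ne

/-- The letters of the row `i + 1` after the change. -/
theorem val_chg2 {I : B → Fin d × Fin (2 * h) → B} (hI : CF (fine g) x0 i I)
    (hu : Function.Injective u) (p : (Fin a → Fin (2 * h) → B) × (Fin a → Fin (2 * h) → B))
    (j : Fin a) (t : Fin (2 * h)) :
    val (fine g) x0 (I + chg2 g x0 i u r r' p I) (i + 1) (u j, t) =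
      val (fine g) x0 I (i + 1) (u j, t) + p.1 j t + p.2 j t := by
  have h1 : ∀ y : Fin a → Fin (2 * h) → B, (∑ j', if u j' = u j then y j' t else 0) = y j t := by
    intro y
    rw [Finset.sum_eq_single j]
    · rw [if_pos rfl]
    · intro j' _ hj'
      rw [if_neg fun h5 => hj' (hu h5)]
    · intro h5
      exact (h5 (Finset.mem_univ _)).elim
  rw [chg2_eq hI, val_chg (CF_chg hI p.1), val_chg hI, h1, h1]

/-- The holes after the change. -/
theorem hole_chg2 {I : B → Fin d × Fin (2 * h) → B} (hI : CF (fine g) x0 i I)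
    (p : (Fin a → Fin (2 * h) → B) × (Fin a → Fin (2 * h) → B)) {ρ : Fin a → Fin d × Fin (2 * h)} (j : Fin a) :
    hole g x0 i u ρ (I + chg2 g x0 i u r r' p I) j = hole g x0 i u ρ I j := by
  rw [chg2_eq hI, hole_chg' (CF_chg hI p.1), hole_chg' hI]

/-- E5: a class is small. -/
theorem class_bound2 [Fintype B] [DecidableEq B] (P : NProg B (Fin d × Fin (2 * h) → B) B S) (e : B → Fin K)
    (he : Function.Injective e) (g : Fin d → Equiv.Perm (Fin n)) (x0 : Fin n × Fin (2 * h) → B)
    {T i a v E : ℕ} (hE : DPL (Fin a × Fin (2 * h)) B v E) (hT : v + T ≤ Fintype.card B)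
    (u : Fin a → Fin n) (hu : Function.Injective u)
    (r r' : Fin a → Fin d × Fin (2 * h)) (s q t : Fin S) (I : B → Fin d × Fin (2 * h) → B)
    (hI : CF (fine g) x0 i I) :
    Nat.card {p : (Fin a → Fin (2 * h) → B) × (Fin a → Fin (2 * h) → B) //
      InX2 P e g x0 T i u r r' s q t (I + chg2 g x0 i u r r' p I)} ≤ E := by
  classical
  -- pass to functions on the set of the coordinates
  let cu : ((Fin a × Fin (2 * h) → B) × (Fin a × Fin (2 * h) → B)) →
      (Fin a → Fin (2 * h) → B) × (Fin a → Fin (2 * h) → B) :=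
    fun p => (fun j t => p.1 (j, t), fun j t => p.2 (j, t))
  have hcard : Nat.card {p : (Fin a → Fin (2 * h) → B) × (Fin a → Fin (2 * h) → B) //
      InX2 P e g x0 T i u r r' s q t (I + chg2 g x0 i u r r' p I)} =
      Nat.card {p : (Fin a × Fin (2 * h) → B) × (Fin a × Fin (2 * h) → B) //
        InX2 P e g x0 T i u r r' s q t (I + chg2 g x0 i u r r' (cu p) I)} := by
    refine Nat.card_congr (Equiv.subtypeEquiv
      (Equiv.prodCongr (Equiv.curry _ _ _).symm (Equiv.curry _ _ _).symm) fun p => Iff.rfl)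
  rw [hcard, Nat.card_eq_fintype_card, Fintype.card_subtype]
  set X := Finset.univ.filter (fun p : (Fin a × Fin (2 * h) → B) × (Fin a × Fin (2 * h) → B) =>
    InX2 P e g x0 T i u r r' s q t (I + chg2 g x0 i u r r' (cu p) I)) with hX
  have hw : ∀ p ∈ X, ∃ w : List B × List B, Best P e (I + chg2 g x0 i u r r' (cu p) I) s w.1 q ∧
      Best P e (I + chg2 g x0 i u r r' (cu p) I) q w.2 t ∧ Nat.card {c // c ∈ w.1 ++ w.2} ≤ T ∧
      ∀ j, (∀ t, val (fine g) x0 I (i + 1) (u j, t) + (cu p).1 j t + (cu p).2 j t ∈ w.1 ++ w.2) ∧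
        hole g x0 i u r I j ∉ w.1 ∧ hole g x0 i u r' I j ∉ w.2 := by
    intro p hp
    obtain ⟨_, w₁, w₂, h1, h2, h3, h4⟩ := (Finset.mem_filter.mp hp).2
    refine ⟨(w₁, w₂), h1, h2, h3, fun j => ?_⟩
    have h5 := h4 j
    rw [hole_chg2 hI, hole_chg2 hI] at h5
    refine ⟨fun t => ?_, h5.2⟩
    rw [← val_chg2 (r := r) (r' := r') hI hu (cu p)]
    exact h5.1 t
  choose! W hW using hw
  refine card_class hE (fun c => val (fine g) x0 I (i + 1) (u c.1, c.2)) X (fun p => (W p).1) (fun p => (W p).2)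
    ?_ ?_ ?_ ?_
  · -- the first window does not depend on `y`
    intro y y' z hp hp'
    have hv : ∀ y y' : Fin a × Fin (2 * h) → B, (y, z) ∈ X →
        P.Run (I + chg2 g x0 i u r r' (cu (y', z)) I) s (W (y, z)).1 q := by
      intro y y' hp
      refine run_congr (hW _ hp).1.run fun c hc => ?_
      have h1 : ∀ j, c ≠ hole g x0 i u r I j := fun j h => ((hW _ hp).2.2.2 j).2.1 (h ▸ hc)
      unfold chg2
      rw [Pi.add_apply, Pi.add_apply, Pi.add_apply, Pi.add_apply, chg_of_not h1, chg_of_not h1]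
    exact Best.unique he (hW _ hp).1 (hW _ hp').1 (hv y' y hp') (hv y y' hp)
  · -- the second window does not depend on `z`
    intro y z z' hp hp'
    have hv : ∀ z z' : Fin a × Fin (2 * h) → B, (y, z) ∈ X →
        P.Run (I + chg2 g x0 i u r r' (cu (y, z')) I) q (W (y, z)).2 t := by
      intro z z' hp
      refine run_congr (hW _ hp).2.1.run fun c hc => ?_
      have h1 : ∀ j, c ≠ hole g x0 i u r' I j := fun j h => ((hW _ hp).2.2.2 j).2.2 (h ▸ hc)
      unfold chg2
      rw [Pi.add_apply, Pi.add_apply, Pi.add_apply, Pi.add_apply, chg_of_not h1, chg_of_not h1]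
    exact Best.unique he (hW _ hp).2.1 (hW _ hp').2.1 (hv z' z hp') (hv z z' hp)
  · intro p hp
    have h2 := (hW p hp).2.2.1
    rw [Nat.card_eq_fintype_card, Fintype.card_of_subtype ((W p).1.toFinset ∪ (W p).2.toFinset) (fun c => by
      rw [Finset.mem_union, List.mem_toFinset, List.mem_toFinset, List.mem_append])] at h2
    omega
  · intro p hp c
    have h2 := ((hW p hp).2.2.2 c.1).1 c.2
    rw [List.mem_append] at h2
    exact h2

end Pool.Agent.Helper96.NE
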